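import Pool.Agent.CMC.TOne

/-! `card_eq`, `card_val` of `TOne.lean`, under the names `card_eq'`, `card_val'` (only `mem_SA`
and `IsTile.nonempty` of `TOne.lean` are used).

For a prime `q` and `M` with `A ⊕ T = ℤ_M`, `s ∣ M` for all `s ∈ SA A`, `q^k ‖ M`: with
`JA = {j < k : Φ_(q^(j+1)) | A}`, `JT` the same for `T`, `JA ∪ JT = {0..k-1}` (`root_or`),
`|JA| ≤ v_q(|A|)`, `|JT| ≤ v_q(|T|)` (`t1_pow_dvd`), `v_q(|A|) + v_q(|T|) = k`. -/

namespace Pool.Agent.CMC

open Finset Pool.Agent.CMT

/-- `v_q(|A|) = #{j ≥ 1 : q^j ∈ SA A}`, in the form used later. -/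
theorem card_val' {A : Finset ℕ} (h : IsTile A) {q : ℕ} (hq : q.Prime) :
    A.card.factorization q = ((SA A).filter (fun s => s.minFac = q)).card := by
  classical
  have hne : A.Nonempty := h.nonempty
  have hP : 0 < ∏ s ∈ SA A, s := by
    refine Finset.prod_pos fun s hs => ?_
    exact ((mem_SA hne).1 hs).1.pos
  obtain ⟨M, T, hPM, hT⟩ := exists_til h hP
  have hsM : ∀ s ∈ SA A, s ∣ M := fun s hs => (Finset.dvd_prod_of_mem _ hs).trans hPM
  have hM0 : M ≠ 0 := hT.1.ne'
  have hcard := til_card hT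
  have hA0 : A.card ≠ 0 := fun h0 => hM0 (by rw [← hcard, h0, Nat.zero_mul])
  have hT0 : T.card ≠ 0 := fun h0 => hM0 (by rw [← hcard, h0, Nat.mul_zero])
  set k := M.factorization q with hk
  have hkAT : A.card.factorization q + T.card.factorization q = k := by
    rw [hk, ← hcard, Nat.factorization_mul hA0 hT0]
    rfl
  set JA := (range k).filter (fun j => Polynomial.cyclotomic (q ^ (j + 1)) ℤ ∣ mask A) with hJA
  set JT := (range k).filter (fun j => Polynomial.cyclotomic (q ^ (j + 1)) ℤ ∣ mask T) with hJT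
  have h1 : JA.card ≤ A.card.factorization q :=
    (hq.pow_dvd_iff_le_factorization hA0).1
      (t1_pow_dvd hq A JA fun j hj => (mem_filter.mp hj).2)
  have h2 : JT.card ≤ T.card.factorization q :=
    (hq.pow_dvd_iff_le_factorization hT0).1
      (t1_pow_dvd hq T JT fun j hj => (mem_filter.mp hj).2)
  have h5 : JA ∪ JT = range k := by
    apply Finset.Subset.antisymm
    · exact union_subset (filter_subset _ _) (filter_subset _ _)
    · intro j hj
      have hjk : j + 1 ≤ k := mem_range.mp hj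
      have hd : q ^ (j + 1) ∣ M := (hq.pow_dvd_iff_le_factorization hM0).mpr hjk
      have hne1 : q ^ (j + 1) ≠ 1 := (Nat.one_lt_pow (by omega) hq.one_lt).ne'
      rcases root_or hT hd hne1 with h6 | h6
      · exact mem_union_left _ (mem_filter.mpr ⟨hj, h6⟩)
      · exact mem_union_right _ (mem_filter.mpr ⟨hj, h6⟩)
  have h9 := card_union_le JA JT
  rw [h5, card_range] at h9
  have h10 : A.card.factorization q = JA.card := by omega
  rw [h10]
  have h11 : (SA A).filter (fun s => s.minFac = q) = JA.image (fun j => q ^ (j + 1)) := by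
    ext s
    rw [mem_filter, mem_image]
    constructor
    · rintro ⟨hs, hsq⟩
      obtain ⟨hpp, hdvd⟩ := (mem_SA hne).1 hs
      obtain ⟨p, i, hp, hi, rfl⟩ := hpp
      rw [← Nat.prime_iff] at hp
      rw [hp.pow_minFac hi.ne'] at hsq
      subst hsq
      obtain ⟨j, rfl⟩ : ∃ j, i = j + 1 := ⟨i - 1, by omega⟩
      refine ⟨j, mem_filter.2 ⟨?_, hdvd⟩, rfl⟩
      have := (hp.pow_dvd_iff_le_factorization hM0).1 (hsM _ hs)
      exact mem_range.2 (by omega)
    · rintro ⟨j, hj, rfl⟩
      refine ⟨(mem_SA hne).2 ⟨hq.isPrimePow.pow (by omega), (mem_filter.1 hj).2⟩, ?_⟩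
      exact hq.pow_minFac (by omega)
  rw [h11, card_image_of_injective]
  intro i j hij
  have := Nat.pow_right_injective hq.two_le hij
  omega

theorem card_eq' {A : Finset ℕ} (h : IsTile A) : A.card = ∏ s ∈ SA A, s.minFac := by
  classical
  have hne : A.Nonempty := h.nonempty
  have hA0 : A.card ≠ 0 := card_ne_zero.2 hne
  have hpr : ∀ s ∈ SA A, s.minFac.Prime := fun s hs =>
    Nat.minFac_prime ((mem_SA hne).1 hs).1.ne_one
  have hP0 : ∏ s ∈ SA A, s.minFac ≠ 0 := prod_ne_zero_iff.2 fun s hs => (hpr s hs).ne_zero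
  refine Nat.eq_of_factorization_eq hA0 hP0 fun q => ?_
  by_cases hq : q.Prime
  · rw [card_val' h hq, Nat.factorization_prod fun s hs => (hpr s hs).ne_zero,
      Finset.sum_apply', card_filter]
    refine sum_congr rfl fun s hs => ?_
    rw [(hpr s hs).factorization, Finsupp.single_apply]
  · rw [Nat.factorization_eq_zero_of_not_prime _ hq, Nat.factorization_eq_zero_of_not_prime _ hq]

end Pool.Agent.CMC
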