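import Pool.Agent.CMC.Defs

/-! Elementary facts about `ex`. -/

namespace Pool.Agent.CMC

open Finset Pool.Agent.CMT

theorem ex_add (θ ξ : ℚ) (x : ℕ) : ex (θ + ξ) x = ex θ x * ex ξ x := by
  unfold ex
  rw [← Complex.exp_add]
  congr 1
  push_cast
  ring

theorem ex_zero (x : ℕ) : ex 0 x = 1 := by
  unfold ex
  simp

theorem ex_ne_zero (θ : ℚ) (x : ℕ) : ex θ x ≠ 0 := Complex.exp_ne_zero _

theorem ex_int (k : ℤ) (x : ℕ) : ex (k : ℚ) x = 1 := by
  unfold ex
  rw [Complex.exp_eq_one_iff]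
  exact ⟨k * x, by push_cast; ring⟩

/-- Geometric sum. -/
theorem sum_ex (n : ℕ) (hn : 0 < n) (x r : ℕ) :
    ∑ j ∈ range n, ex ((j : ℚ) / n) x * (ex ((j : ℚ) / n) r)⁻¹ =
      if x % n = r % n then (n : ℂ) else 0 := by
  have hn' : (n : ℂ) ≠ 0 := by exact_mod_cast hn.ne'
  obtain ⟨w, hw⟩ : ∃ w : ℂ, w = Complex.exp (2 * Real.pi * Complex.I * (((x : ℂ) - r) / n)) :=
    ⟨_, rfl⟩
  have h1 : ∀ j ∈ range n, ex ((j : ℚ) / n) x * (ex ((j : ℚ) / n) r)⁻¹ = w ^ j := by
    intro j _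
    rw [hw, ← Complex.exp_nat_mul]
    unfold ex
    rw [← Complex.exp_neg, ← Complex.exp_add]
    congr 1
    push_cast
    ring
  rw [sum_congr rfl h1]
  have h2 : w = 1 ↔ x % n = r % n := by
    rw [hw, Complex.exp_eq_one_iff]
    constructor
    · rintro ⟨k, hk⟩
      have h3 : ((x : ℂ) - r) = k * n := by
        have h4 : (2 * Real.pi * Complex.I : ℂ) ≠ 0 := Complex.two_pi_I_ne_zero
        have h5 : ((x : ℂ) - r) / n = k := by
          apply mul_left_cancel₀ h4
          rw [hk]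
          ring
        rw [div_eq_iff hn'] at h5
        exact h5
      have h6 : (x : ℤ) - r = k * n := by exact_mod_cast h3
      have h7 : (x : ℤ) ≡ r [ZMOD n] := by
        apply Int.ModEq.symm
        rw [Int.modEq_iff_dvd]
        exact ⟨k, by rw [h6]; ring⟩
      exact (Int.natCast_modEq_iff.1 h7)
    · intro h
      have h7 : (r : ℤ) ≡ x [ZMOD n] := Int.natCast_modEq_iff.2 h.symm
      rw [Int.modEq_iff_dvd] at h7
      obtain ⟨k, hk⟩ := h7
      refine ⟨k, ?_⟩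
      have h3 : ((x : ℂ) - r) = n * k := by exact_mod_cast hk
      rw [h3]
      field_simp
  have h3 : w ^ n = 1 := by
    rw [hw, ← Complex.exp_nat_mul, Complex.exp_eq_one_iff]
    refine ⟨(x : ℤ) - r, ?_⟩
    push_cast
    field_simp
  split_ifs with h
  · rw [h2.2 h]
    simp
  · have h4 : w ≠ 1 := fun h5 => h (h2.1 h5)
    have h5 := geom_sum_mul w n
    rw [h3, sub_self] at h5
    rcases mul_eq_zero.1 h5 with h6 | h6
    · exact h6
    · exact absurd (sub_eq_zero.1 h6) h4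

end Pool.Agent.CMC
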