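import Pool.Agent.CMC.Root
import Pool.Agent.CMC.Ex

/-! Classes mod `|A|` of a tile `A` (note 2683). -/

namespace Pool.Agent.CMC

open Finset Pool.Agent.CMT

/-- The levels at a prime with no high level are exactly `1, …, v_q(|A|)`. -/
theorem low_full {A : Finset ℕ} (h : IsTile A) {q : ℕ} (hq : q.Prime)
    (hno : ∀ j, q ^ j ∈ SA A → j ≤ A.card.factorization q) {i : ℕ} (hi1 : 1 ≤ i)
    (hi : i ≤ A.card.factorization q) : q ^ i ∈ SA A := by
  classical
  set v := A.card.factorization q with hv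
  set F := (SA A).filter (fun s => s.minFac = q) with hF
  have hcard : v = F.card := card_val h hq
  have hsub : F ⊆ (Icc 1 v).image (fun j => q ^ j) := by
    intro s hs
    rw [hF, mem_filter] at hs
    obtain ⟨hs1, hs2⟩ := hs
    obtain ⟨hpp, -⟩ := (mem_SA h.nonempty).1 hs1
    obtain ⟨p, k, hp, hk, rfl⟩ := (isPrimePow_nat_iff s).1 hpp
    have : p = q := by
      rw [← hs2, hp.pow_minFac hk.ne']
    subst this
    exact mem_image.2 ⟨k, mem_Icc.2 ⟨hk, hno k hs1⟩, rfl⟩
  have hinj : Function.Injective (fun j : ℕ => q ^ j) := Nat.pow_right_injective hq.two_le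
  have hc2 : ((Icc 1 v).image (fun j => q ^ j)).card = v := by
    rw [card_image_of_injective _ hinj, Nat.card_Icc]; omega
  have heq : F = (Icc 1 v).image (fun j => q ^ j) :=
    eq_of_subset_of_card_le hsub (by rw [hc2]; exact hcard.le)
  have hm : q ^ i ∈ F := by
    rw [heq]
    exact mem_image.2 ⟨i, mem_Icc.2 ⟨hi1, hi⟩, rfl⟩
  exact (mem_filter.1 hm).1

theorem val_low {n : ℕ} (hn : 0 < n) (j : ℕ) {q : ℕ} (hq : q.Prime) :
    -(n.factorization q : ℤ) ≤ padicValRat q ((j : ℚ) / n) := by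
  have : Fact q.Prime := ⟨hq⟩
  rcases Nat.eq_zero_or_pos j with rfl | hj
  · simp
  · rw [padicValRat.div (by exact_mod_cast hj.ne') (by exact_mod_cast hn.ne'),
      padicValRat.of_nat, padicValRat.of_nat, ← Nat.factorization_def _ hq,
      ← Nat.factorization_def _ hq]
    omega

theorem ne_aux (D n j : ℕ) (hD : 0 < D) : ((1 : ℚ) / D + (j : ℚ) / n) ≠ 0 := by
  positivity

theorem val_high {D n j q m : ℕ} (hD : 0 < D) (hn : 0 < n) (hq : q.Prime)
    (h1 : padicValRat q ((1 : ℚ) / D) = -(m : ℤ)) (h3 : n.factorization q < m) :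
    padicValRat q ((1 : ℚ) / D + (j : ℚ) / n) = -(m : ℤ) := by
  have : Fact q.Prime := ⟨hq⟩
  have h2 := val_low hn j hq
  rcases Nat.eq_zero_or_pos j with rfl | hj
  · simpa using h1
  · have hjn : ((j : ℚ) / n) ≠ 0 := by positivity
    have hDne : ((1 : ℚ) / D) ≠ 0 := by positivity
    have hlt : padicValRat q ((1 : ℚ) / D) < padicValRat q ((j : ℚ) / n) := by
      rw [h1]; omega
    rw [padicValRat.add_eq_of_lt (ne_aux D n j hD) hDne hjn hlt, h1]

theorem val_other {D n j q : ℕ} (hD : 0 < D) (hn : 0 < n) (hq : q.Prime)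
    (h1 : padicValRat q ((1 : ℚ) / D) = 0)
    (hneg : padicValRat q ((1 : ℚ) / D + (j : ℚ) / n) < 0) :
    padicValRat q ((1 : ℚ) / D + (j : ℚ) / n) = padicValRat q ((j : ℚ) / n) := by
  have : Fact q.Prime := ⟨hq⟩
  rcases Nat.eq_zero_or_pos j with rfl | hj
  · simp only [Nat.cast_zero, zero_div, add_zero] at hneg
    omega
  have hjn : ((j : ℚ) / n) ≠ 0 := by positivity
  have hDne : ((1 : ℚ) / D) ≠ 0 := by positivity
  have hsum := ne_aux D n j hD
  have hlt : padicValRat q ((j : ℚ) / n) < padicValRat q ((1 : ℚ) / D) := by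
    by_contra hcon
    have := padicValRat.le_padicValRat_add_of_le hsum (not_lt.1 hcon)
    omega
  have hsum' : ((j : ℚ) / n + (1 : ℚ) / D) ≠ 0 := by
    intro h0
    exact hsum (by rw [← h0]; ring)
  have h4 : (1 : ℚ) / D + (j : ℚ) / n = (j : ℚ) / n + (1 : ℚ) / D := by ring
  rw [h4]
  exact padicValRat.add_eq_of_lt hsum' hjn hDne hlt

theorem sum_classes (A : Finset ℕ) {n : ℕ} (hn : 0 < n) (δ : ℚ) (r : ℕ) :
    (n : ℂ) * ∑ a ∈ A.filter (fun a => a % n = r % n), ex δ a =
      ∑ j ∈ range n, (ex ((j : ℚ) / n) r)⁻¹ * ev A (δ + (j : ℚ) / n) := by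
  have h1 : ∀ j ∈ range n, (ex ((j : ℚ) / n) r)⁻¹ * ev A (δ + (j : ℚ) / n) =
      ∑ a ∈ A, ex δ a * (ex ((j : ℚ) / n) a * (ex ((j : ℚ) / n) r)⁻¹) := by
    intro j _
    unfold ev
    rw [mul_sum]
    refine sum_congr rfl fun a _ => ?_
    rw [ex_add]
    ring
  rw [sum_congr rfl h1, sum_comm]
  have h2 : ∀ a ∈ A, ∑ j ∈ range n, ex δ a * (ex ((j : ℚ) / n) a * (ex ((j : ℚ) / n) r)⁻¹) =
      if a % n = r % n then (n : ℂ) * ex δ a else 0 := by
    intro a _
    rw [← mul_sum, sum_ex n hn a r]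
    split_ifs
    · ring
    · ring
  rw [sum_congr rfl h2, ← sum_filter, mul_sum]

theorem classes {A : Finset ℕ} (h : IsTile A) :
    (∀ r : ℕ, (A.filter (fun a => a % A.card = r % A.card)).card = 1) ∨
    (∀ r : ℕ, (A.filter (fun a => a % A.card = r % A.card)).card ≠ 1) := by
  classical
  set n := A.card with hn
  have hn0 : 0 < n := h.nonempty.card_pos
  by_cases hP : ∃ q j : ℕ, q.Prime ∧ n.factorization q < j ∧ q ^ j ∈ SA A
  · right
    intro r hr
    -- the primes with a high level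
    have hfin : {q : ℕ | q.Prime ∧ ∃ j, n.factorization q < j ∧ q ^ j ∈ SA A}.Finite := by
      refine (SA A).finite_toSet.image Nat.minFac |>.subset ?_
      rintro q ⟨hq, j, hj, hjS⟩
      exact ⟨q ^ j, by simpa using hjS, hq.pow_minFac (by omega)⟩
    set P0 : Finset ℕ := hfin.toFinset with hP0
    have hmem : ∀ q, q ∈ P0 ↔ q.Prime ∧ ∃ j, n.factorization q < j ∧ q ^ j ∈ SA A := by
      intro q
      rw [hP0, Set.Finite.mem_toFinset]
      exact Iff.rfl
    have hch : ∀ q, ∃ m : ℕ, q ∈ P0 → n.factorization q < m ∧ q ^ m ∈ SA A := by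
      intro q
      by_cases hq : q ∈ P0
      · obtain ⟨-, j, hj⟩ := (hmem q).1 hq
        exact ⟨j, fun _ => hj⟩
      · exact ⟨0, fun hq' => absurd hq' hq⟩
    choose m hm using hch
    set D : ℕ := ∏ q ∈ P0, q ^ m q with hD
    have hD0 : D ≠ 0 := by
      rw [hD]
      exact prod_ne_zero_iff.2 fun q hq => pow_ne_zero _ ((hmem q).1 hq).1.ne_zero
    have hDf : ∀ q : ℕ, q.Prime → D.factorization q = if q ∈ P0 then m q else 0 := by
      intro q hq
      rw [hD, Nat.factorization_prod (fun x hx => pow_ne_zero _ ((hmem x).1 hx).1.ne_zero),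
        Finsupp.finsetSum_apply]
      have : ∀ x ∈ P0, (x ^ m x).factorization q = if x = q then m q else 0 := by
        intro x hx
        rw [((hmem x).1 hx).1.factorization_pow, Finsupp.single_apply]
        split_ifs with h1
        · rw [h1]
        · rfl
      rw [sum_congr rfl this, sum_ite_eq' P0 q]
    have hvD : ∀ q : ℕ, q.Prime → padicValRat q ((1 : ℚ) / D) =
        -((if q ∈ P0 then m q else 0 : ℕ) : ℤ) := by
      intro q hq
      have : Fact q.Prime := ⟨hq⟩
      rw [one_div, padicValRat.inv, padicValRat.of_nat, ← Nat.factorization_def _ hq, hDf q hq]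
    have hDpos : 0 < D := Nat.pos_of_ne_zero hD0
    clear_value D
    -- valuation of θ at q ∈ P0
    have hv1 : ∀ (j q : ℕ), q ∈ P0 → padicValRat q ((1 : ℚ) / D + (j : ℚ) / n) = -(m q : ℤ) := by
      intro j q hq
      have hqp := ((hmem q).1 hq).1
      have h1 := hvD q hqp
      rw [if_pos hq] at h1
      exact val_high hDpos hn0 hqp h1 (hm q hq).1
    have hadm : ∀ j : ℕ, AdmQ (SA A) ((1 : ℚ) / D + (j : ℚ) / n) := by
      intro j q hq hneg
      by_cases hqP : q ∈ P0
      · rw [hv1 j q hqP]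
        simpa using (hm q hqP).2
      · have h1 := hvD q hq
        rw [if_neg hqP] at h1
        have h1' : padicValRat q ((1 : ℚ) / D) = 0 := by simpa using h1
        have hvo := val_other hDpos hn0 hq h1' hneg
        rw [hvo] at hneg ⊢
        have h3 := val_low hn0 j hq
        refine low_full h hq ?_ ?_ ?_
        · intro i hi
          by_contra hcon
          exact hqP ((hmem q).2 ⟨hq, i, not_le.1 hcon, hi⟩)
        · omega
        · change _ ≤ n.factorization q
          omega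
    obtain ⟨q0, j0, hq0, hj0, hj0S⟩ := hP
    have hq0P : q0 ∈ P0 := (hmem q0).2 ⟨hq0, j0, hj0, hj0S⟩
    have hden : ∀ j : ℕ, ((1 : ℚ) / D + (j : ℚ) / n).den ≠ 1 := by
      intro j hden
      have : Fact q0.Prime := ⟨hq0⟩
      have h1 := hv1 j q0 hq0P
      have h2 := (hm q0 hq0P).1
      have h3 : ((1 : ℚ) / D + (j : ℚ) / n) = (((1 : ℚ) / D + (j : ℚ) / n).num : ℚ) :=
        (Rat.den_eq_one_iff _).1 hden |>.symm
      rw [h3, padicValRat.of_int] at h1
      omega
    have hs := sum_classes A hn0 ((1 : ℚ) / D) r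
    have hz : ∑ j ∈ range n, (ex ((j : ℚ) / n) r)⁻¹ * ev A ((1 : ℚ) / D + (j : ℚ) / n) = 0 :=
      sum_eq_zero (fun j _ => by rw [ev_zero h (hden j) (hadm j), mul_zero])
    rw [hz] at hs
    obtain ⟨a, ha⟩ := card_eq_one.1 hr
    rw [ha, sum_singleton] at hs
    have : (n : ℂ) ≠ 0 := by exact_mod_cast hn0.ne'
    exact (mul_ne_zero this (ex_ne_zero _ _)) hs
  · left
    intro r
    push Not at hP
    have hs := sum_classes A hn0 0 r
    have h0 : ∀ j ∈ range n, j ≠ 0 →
        (ex ((j : ℚ) / n) r)⁻¹ * ev A (0 + (j : ℚ) / n) = 0 := by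
      intro j hj hj0
      have hjn : j < n := mem_range.1 hj
      rw [zero_add, ev_zero h ?_ ?_, mul_zero]
      · intro hden
        have h3 : ((j : ℚ) / n) = (((j : ℚ) / n).num : ℚ) :=
          (Rat.den_eq_one_iff _).1 hden |>.symm
        have h4 : ((j : ℚ) / n) < 1 := by
          rw [div_lt_one (Nat.cast_pos.2 hn0)]
          exact Nat.cast_lt.2 hjn
        have h5 : 0 < ((j : ℚ) / n) :=
          div_pos (Nat.cast_pos.2 (Nat.pos_of_ne_zero hj0)) (Nat.cast_pos.2 hn0)
        rw [h3] at h4 h5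
        have h6 : ((j : ℚ) / n).num < 1 := by exact_mod_cast h4
        have h7 : 0 < ((j : ℚ) / n).num := by exact_mod_cast h5
        omega
      · intro q hq hneg
        have h3 := val_low hn0 j hq
        refine low_full h hq ?_ ?_ ?_
        · intro i hi
          by_contra hcon
          exact hP q i hq (not_le.1 hcon) hi
        · omega
        · change _ ≤ n.factorization q
          omega
    rw [sum_eq_single 0 (fun j hj hj0 => h0 j hj hj0)
      (fun h => absurd (mem_range.2 hn0) h)] at hs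
    have h1 : ∀ a ∈ A.filter (fun a => a % n = r % n), ex 0 a = 1 := fun a _ => ex_zero a
    rw [sum_congr rfl h1] at hs
    simp only [sum_const, mul_one, Nat.cast_zero, zero_div, add_zero, ex_zero,
      inv_one, one_mul, nsmul_eq_mul] at hs
    have h2 : ev A 0 = n := by
      unfold ev
      rw [sum_congr rfl (fun a _ => ex_zero a)]
      simp [hn]
    rw [h2] at hs
    have hnc : (n : ℂ) ≠ 0 := by exact_mod_cast hn0.ne'
    have h3 : (((A.filter (fun a => a % n = r % n)).card : ℕ) : ℂ) = 1 :=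
      mul_left_cancel₀ hnc (by rw [hs, mul_one])
    exact_mod_cast h3

end Pool.Agent.CMC
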