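import Pool.Agent.CMC.Cnt2

/-! Counting tiles inside a finite set (note 2687): `prod_le`, `count_fixed` in `Cnt1` (helper20),
`sa_candidates`, `sa_card`, `count` in `Cnt2` (helper84). -/
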