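import Pool.Agent.CMC.Dig

/-! Counting tiles inside a finite set (note 2687): the tiles with a fixed `SA`. -/

namespace Pool.Agent.CMC

open Finset Pool.Agent.CMT

private theorem cnt1_cube (k : ℕ) : k ^ 3 ≤ 3 ^ k := by
  rcases Nat.lt_or_ge k 3 with h | h
  · interval_cases k <;> norm_num
  · induction k, h using Nat.le_induction with
    | base => norm_num
    | succ n hn ih =>
      have h1 : (n + 1) ^ 3 ≤ 3 * n ^ 3 := by
        obtain ⟨m, rfl⟩ := Nat.exists_eq_add_of_le hn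
        nlinarith [Nat.zero_le m, Nat.zero_le (m ^ 2), Nat.zero_le (m ^ 3)]
      calc (n + 1) ^ 3 ≤ 3 * n ^ 3 := h1
        _ ≤ 3 * 3 ^ n := Nat.mul_le_mul_left 3 ih
        _ = 3 ^ (n + 1) := by ring

private theorem cnt1_le (k : ℕ) : (k : ℝ) ≤ (3 : ℝ) ^ ((k : ℝ) / 3) := by
  have h0 : (0 : ℝ) ≤ (3 : ℝ) ^ ((k : ℝ) / 3) := by positivity
  refine le_of_pow_le_pow_left₀ (n := 3) (by norm_num) h0 ?_
  rw [← Real.rpow_natCast ((3 : ℝ) ^ ((k : ℝ) / 3)) 3, ← Real.rpow_mul (by norm_num)]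
  have e : (k : ℝ) / 3 * ((3 : ℕ) : ℝ) = (k : ℝ) := by
    push_cast
    ring
  rw [e, Real.rpow_natCast]
  exact_mod_cast cnt1_cube k

/-- The number of transversals of a partition of `M` given by a map `f` to `t : ι`:
`k^3 ≤ 3^k`. -/
theorem prod_le (ι : Type) (I : Finset ι) (k : ι → ℕ) :
    ((∏ i ∈ I, k i : ℕ) : ℝ) ≤ (3 : ℝ) ^ (((∑ i ∈ I, k i : ℕ) : ℝ) / 3) := by
  rw [Nat.cast_prod, Nat.cast_sum, Finset.sum_div, Real.rpow_sum_of_pos (by norm_num)]
  exact Finset.prod_le_prod (fun i _ => Nat.cast_nonneg _) fun i _ => cnt1_le (k i)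

/-- For fixed `S`, the tiles `A ⊆ M` with `SA A = S` are at most `3^(n/3)`. -/
theorem count_fixed (M : Finset ℕ) (S : Finset ℕ) (F : Finset (Finset ℕ))
    (hF : ∀ A ∈ F, A ⊆ M ∧ IsTile A ∧ SA A = S) :
    (F.card : ℝ) ≤ (3 : ℝ) ^ ((M.card : ℝ) / 3) := by
  classical
  let δ : ℕ → (↥S → ℕ) := fun m s => dig (s : ℕ) m
  let I : Finset (↥S → ℕ) := M.image δ
  let g : Finset ℕ → (↥S → ℕ) → ℕ := fun A τ => (A.filter (fun a => δ a = τ)).sup id
  have hone : ∀ A ∈ F, ∀ τ ∈ I, ∃ x, A.filter (fun a => δ a = τ) = {x} := by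
    intro A hA τ hτ
    obtain ⟨m, hm, rfl⟩ := Finset.mem_image.mp hτ
    obtain ⟨_, hT, hS⟩ := hF A hA
    have h1 := transversal hT (fun s => dig s m) fun s _ => by
      unfold dig
      exact Nat.mod_lt _ (Nat.minFac_pos s)
    rw [← Finset.card_eq_one]
    rw [← h1]
    congr 1
    ext a
    simp only [Finset.mem_filter, and_congr_right_iff]
    intro _
    constructor
    · intro h s hs
      exact congrFun h ⟨s, hS ▸ hs⟩
    · intro h
      funext s
      exact h s (hS ▸ s.2)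
  have hg : ∀ A ∈ F, ∀ τ ∈ I, A.filter (fun a => δ a = τ) = {g A τ} := by
    intro A hA τ hτ
    obtain ⟨x, hx⟩ := hone A hA τ hτ
    have : g A τ = x := by
      simp only [g]
      rw [hx]
      simp
    rw [this, hx]
  have hsub : ∀ A ∈ F, ∀ B ∈ F, (∀ τ ∈ I, g A τ = g B τ) → A ⊆ B := by
    intro A hA B hB h a ha
    have hτ : δ a ∈ I := Finset.mem_image_of_mem _ ((hF A hA).1 ha)
    have h1 : a ∈ A.filter (fun x => δ x = δ a) := Finset.mem_filter.mpr ⟨ha, rfl⟩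
    rw [hg A hA _ hτ, Finset.mem_singleton, h _ hτ] at h1
    have h2 : g B (δ a) ∈ B.filter (fun x => δ x = δ a) := by
      rw [hg B hB _ hτ]
      exact Finset.mem_singleton_self _
    rw [← h1] at h2
    exact (Finset.mem_filter.mp h2).1
  let P : Finset ((τ : ↥S → ℕ) → τ ∈ I → ℕ) := I.pi fun τ => M.filter (fun m => δ m = τ)
  have hcard : F.card ≤ P.card := by
    refine Finset.card_le_card_of_injOn (fun A => fun τ _ => g A τ) ?_ ?_
    · intro A hA
      have hA' : A ∈ F := hA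
      rw [Finset.mem_coe, Finset.mem_pi]
      intro τ hτ
      have h2 : g A τ ∈ A.filter (fun x => δ x = τ) := by
        rw [hg A hA' _ hτ]
        exact Finset.mem_singleton_self _
      rw [Finset.mem_filter] at h2 ⊢
      exact ⟨(hF A hA').1 h2.1, h2.2⟩
    · intro A hA B hB h
      have hAB : ∀ τ ∈ I, g A τ = g B τ := fun τ hτ => congrFun (congrFun h τ) hτ
      exact Finset.Subset.antisymm (hsub A hA B hB hAB)
        (hsub B hB A hA fun τ hτ => (hAB τ hτ).symm)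
  have hP : P.card = ∏ τ ∈ I, (M.filter (fun m => δ m = τ)).card := Finset.card_pi _ _
  have hM : ∑ τ ∈ I, (M.filter (fun m => δ m = τ)).card = M.card :=
    (Finset.card_eq_sum_card_image δ M).symm
  calc (F.card : ℝ) ≤ (P.card : ℝ) := by exact_mod_cast hcard
    _ = ((∏ τ ∈ I, (M.filter (fun m => δ m = τ)).card : ℕ) : ℝ) := by rw [hP]
    _ ≤ (3 : ℝ) ^ (((∑ τ ∈ I, (M.filter (fun m => δ m = τ)).card : ℕ) : ℝ) / 3) :=
      prod_le _ _ _
    _ = (3 : ℝ) ^ ((M.card : ℝ) / 3) := by rw [hM]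

end Pool.Agent.CMC
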