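import Pool.Agent.CMC.Cnt1

/-! Counting tiles inside a finite set (note 2687), part 2: the prime powers which can occur, and
the final count. -/

namespace Pool.Agent.CMC

open Finset Pool.Agent.CMT

private lemma minFac_dvd_card {A : Finset ℕ} (h : IsTile A) {s : ℕ} (hs : s ∈ SA A) :
    s.minFac ∣ A.card := by
  rw [card_eq h]
  exact Finset.dvd_prod_of_mem _ hs

/-- If `Φ_{q^(k+1)} | mask A` then two elements of `A` differ by exactly `q^k` mod `q^(k+1)`. -/
private lemma exists_pair {A : Finset ℕ} (hA : A.Nonempty) {q k : ℕ} (hq : q.Prime)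
    (h : Polynomial.cyclotomic (q ^ (k + 1)) ℤ ∣ mask A) :
    ∃ x ∈ A, ∃ y ∈ A, padicValInt q ((x : ℤ) - y) = k := by
  classical
  have : Fact q.Prime := ⟨hq⟩
  obtain ⟨a, ha⟩ := hA
  have hkey := evs_key (ζ := (1 : ℂ)) (k := k) hq (A := A) (by simp) (by simp) (by simpa using h)
    (((a + q ^ k : ℕ) : ZMod (q ^ (k + 1))))
  have hkap : kap q k ((a + q ^ k : ℕ) : ZMod (q ^ (k + 1))) = ((a : ℕ) : ZMod (q ^ k)) := by
    rw [kap_nat]
    push_cast
    have : ((q : ZMod (q ^ k)) ^ k) = 0 := by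
      have := ZMod.natCast_self (q ^ k)
      push_cast at this
      exact this
    rw [this, add_zero]
  rw [hkap] at hkey
  have h1 : evs (q ^ k) A 1 ((a : ℕ) : ZMod (q ^ k)) ≠ 0 := by
    unfold evs
    simp only [one_pow]
    rw [← Finset.sum_filter, Finset.sum_const, nsmul_eq_mul, mul_one]
    have : 0 < (A.filter (fun b => ((b : ℕ) : ZMod (q ^ k)) = ((a : ℕ) : ZMod (q ^ k)))).card :=
      Finset.card_pos.2 ⟨a, by simp [ha]⟩
    exact_mod_cast this.ne'
  have h2 : evs (q ^ (k + 1)) A 1 (((a + q ^ k : ℕ) : ZMod (q ^ (k + 1)))) ≠ 0 := by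
    intro h0
    rw [h0, mul_zero] at hkey
    exact h1 hkey.symm
  obtain ⟨b, hb, hb2⟩ : ∃ b ∈ A, ((b : ℕ) : ZMod (q ^ (k + 1))) =
      (((a + q ^ k : ℕ) : ZMod (q ^ (k + 1)))) := by
    by_contra hcon
    push Not at hcon
    apply h2
    unfold evs
    refine Finset.sum_eq_zero fun b hb => ?_
    rw [if_neg (hcon b hb)]
  refine ⟨b, hb, a, ha, ?_⟩
  have h3 : ((q ^ (k + 1) : ℕ) : ℤ) ∣ (b : ℤ) - ((a + q ^ k : ℕ) : ℤ) := by
    have := (ZMod.intCast_eq_intCast_iff_dvd_sub ((a + q ^ k : ℕ) : ℤ) (b : ℤ) (q ^ (k + 1))).1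
      (by exact_mod_cast hb2.symm)
    exact this
  obtain ⟨c, hc⟩ := h3
  have h4 : (b : ℤ) - a = (q : ℤ) ^ k * (1 + q * c) := by
    push_cast at hc
    rw [pow_succ] at hc
    linear_combination hc
  have h5 : ¬ ((q : ℤ) ∣ 1 + q * c) := by
    intro hd
    have : (q : ℤ) ∣ 1 := (Int.dvd_add_left (Dvd.intro _ rfl)).1 hd
    have h6 := Int.eq_one_of_dvd_one (by positivity) this
    exact hq.one_lt.ne' (by exact_mod_cast h6)
  have h7 : (1 + (q : ℤ) * c) ≠ 0 := fun h0 => h5 (by rw [h0]; exact dvd_zero _)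
  have hq0 : (q : ℤ) ≠ 0 := by exact_mod_cast hq.ne_zero
  rw [h4, padicValInt.mul (pow_ne_zero _ hq0) h7, padicValInt.eq_zero_of_not_dvd h5, add_zero]
  have : ((q : ℤ) ^ k) = ((q ^ k : ℕ) : ℤ) := by push_cast; rfl
  rw [this, padicValInt.of_nat, padicValNat.prime_pow]

/-- The prime powers in `SA A` for tiles `A ⊆ M`. -/
theorem sa_candidates (M : Finset ℕ) :
    ∃ P : Finset ℕ, P.card ≤ M.card ^ 3 ∧ ∀ A ⊆ M, IsTile A → SA A ⊆ P := by
  classical
  refine ⟨(M ×ˢ (M ×ˢ Finset.Icc 1 M.card)).image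
    (fun z => z.2.2 ^ (padicValInt z.2.2 ((z.1 : ℤ) - z.2.1) + 1)), ?_, ?_⟩
  · refine Finset.card_image_le.trans ?_
    rw [Finset.card_product, Finset.card_product, Nat.card_Icc]
    simp [pow_succ, mul_assoc]
  · intro A hAM hA s hs
    have hne := hA.nonempty
    obtain ⟨hpp, hd⟩ := (mem_SA hne).1 hs
    obtain ⟨q, i, hq, hi, rfl⟩ := hpp
    rw [← Nat.prime_iff] at hq
    obtain ⟨k, rfl⟩ : ∃ k, i = k + 1 := ⟨i - 1, by omega⟩
    obtain ⟨x, hx, y, hy, hxy⟩ := exists_pair hne hq hd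
    have h1 : q ∣ A.card := by
      have := minFac_dvd_card hA hs
      rwa [hq.pow_minFac (by omega)] at this
    have h2 : q ≤ M.card :=
      (Nat.le_of_dvd (Finset.card_pos.2 hne) h1).trans (Finset.card_le_card hAM)
    refine Finset.mem_image.2 ⟨(x, y, q), ?_, ?_⟩
    · simp only [Finset.mem_product, Finset.mem_Icc]
      exact ⟨hAM hx, hAM hy, hq.one_lt.le, h2⟩
    · simp only [hxy]

theorem sa_card {A : Finset ℕ} (h : IsTile A) : 2 ^ (SA A).card ≤ A.card := by
  rw [card_eq h, ← Finset.prod_const]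
  refine Finset.prod_le_prod' fun s hs => ?_
  have h1 := ((mem_SA h.nonempty).1 hs).1
  exact (Nat.minFac_prime h1.ne_one).two_le

private lemma card_small_subsets (P : Finset ℕ) (L : ℕ) :
    (P.powerset.filter (fun S => S.card ≤ L)).card ≤ (P.card + 1) ^ L := by
  classical
  have h1 : P.powerset.filter (fun S => S.card ≤ L) ⊆
      (range (L + 1)).biUnion (fun i => P.powersetCard i) := by
    intro S hS
    simp only [Finset.mem_filter, Finset.mem_powerset] at hS
    simp only [Finset.mem_biUnion, Finset.mem_range, Finset.mem_powersetCard]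
    exact ⟨S.card, by omega, hS.1, rfl⟩
  refine (Finset.card_le_card h1).trans (Finset.card_biUnion_le.trans ?_)
  rw [add_pow]
  refine Finset.sum_le_sum fun i hi => ?_
  rw [Finset.card_powersetCard, one_pow, mul_one]
  have h2 : 1 ≤ L.choose i := Nat.choose_pos (by simpa [Nat.lt_succ_iff] using hi)
  calc P.card.choose i ≤ P.card ^ i := Nat.choose_le_pow _ _
    _ ≤ P.card ^ i * L.choose i := Nat.le_mul_of_pos_right _ h2

theorem count (M : Finset ℕ) (F : Finset (Finset ℕ)) (hF : ∀ A ∈ F, A ⊆ M ∧ IsTile A) :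
    (F.card : ℝ) ≤ ((M.card : ℝ) ^ 3 + 1) ^ (Nat.log 2 M.card) * (3 : ℝ) ^ ((M.card : ℝ) / 3) := by
  classical
  obtain ⟨P, hP, hPs⟩ := sa_candidates M
  have h1 : F.card = ∑ S ∈ F.image SA, (F.filter (fun A => SA A = S)).card :=
    Finset.card_eq_sum_card_image SA F
  have h2 : (F.card : ℝ) ≤ ((F.image SA).card : ℝ) * (3 : ℝ) ^ ((M.card : ℝ) / 3) := by
    rw [h1]
    push_cast
    rw [← nsmul_eq_mul, ← Finset.sum_const]
    refine Finset.sum_le_sum fun S _ => ?_
    refine count_fixed M S _ fun A hA => ?_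
    simp only [Finset.mem_filter] at hA
    exact ⟨(hF A hA.1).1, (hF A hA.1).2, hA.2⟩
  have h3 : (F.image SA).card ≤ (M.card ^ 3 + 1) ^ (Nat.log 2 M.card) := by
    have hsub : F.image SA ⊆ P.powerset.filter (fun S => S.card ≤ Nat.log 2 M.card) := by
      intro S hS
      obtain ⟨A, hA, rfl⟩ := Finset.mem_image.1 hS
      obtain ⟨hAM, hAt⟩ := hF A hA
      simp only [Finset.mem_filter, Finset.mem_powerset]
      refine ⟨hPs A hAM hAt, ?_⟩
      refine Nat.le_log_of_pow_le (by norm_num) ?_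
      exact (sa_card hAt).trans (Finset.card_le_card hAM)
    refine (Finset.card_le_card hsub).trans ((card_small_subsets P _).trans ?_)
    exact Nat.pow_le_pow_left (by omega) _
  refine h2.trans (mul_le_mul_of_nonneg_right ?_ (by positivity))
  exact_mod_cast h3

end Pool.Agent.CMC
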