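import Pool.Agent.CMT.Ind
import Pool.Agent.CMT.Per

/-! Consequences of the Coven-Meyerowitz conjecture (note 2669 of helper86; notes 2683, 2687 of
helper10): definitions. -/

namespace Pool.Agent.CMC

open Finset Pool.Agent.CMT

/-- `A` tiles the integers by translation. -/
def IsTile (A : Finset ℕ) : Prop :=
  ∃ C : Set ℤ, ∀ n : ℤ, ∃! p : ℤ × ℤ,
    (∃ a ∈ A, (a : ℤ) = p.1) ∧ p.2 ∈ C ∧ p.1 + p.2 = n

open Classical in
/-- The prime powers `s` with `Φ_s | A` (they satisfy `s ≤ 2 max A`, see `mem_SA`). -/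
noncomputable def SA (A : Finset ℕ) : Finset ℕ :=
  (range (2 * A.sup id + 2)).filter
    (fun s => IsPrimePow s ∧ Polynomial.cyclotomic s ℤ ∣ mask A)

/-- `e(θ x)`. -/
noncomputable def ex (θ : ℚ) (x : ℕ) : ℂ :=
  Complex.exp (2 * Real.pi * Complex.I * ((θ : ℂ) * (x : ℂ)))

/-- `∑_{a ∈ A} e(θ a)`. -/
noncomputable def ev (A : Finset ℕ) (θ : ℚ) : ℂ := ∑ a ∈ A, ex θ a

/-- `θ` is admissible: for every prime `q` in the denominator of `θ`, the exact power of `q` in
the denominator belongs to `S`. -/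
def AdmQ (S : Finset ℕ) (θ : ℚ) : Prop :=
  ∀ q : ℕ, q.Prime → padicValRat q θ < 0 → q ^ (-padicValRat q θ).toNat ∈ S

/-- The digit of `a` at the prime power `s = q^j`: `⌊a / q^(j-1)⌋ mod q`. -/
def dig (s a : ℕ) : ℕ := (a / (s / s.minFac)) % s.minFac

end Pool.Agent.CMC
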