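import Pool.Agent.CMC.Root
import Pool.Agent.CMC.Ex

/-! Admissibility after adding a new level (for `Dig.lean`): `padicValRat` of `θ + c/q^j` is `-j` at
`q` and, when negative, that of `θ` at the other primes. -/

namespace Pool.Agent.CMC

open Finset Pool.Agent.CMT

private theorem dig2_val {q j c : ℕ} (hq : q.Prime) (hc : ¬ q ∣ c) :
    padicValRat q ((c : ℚ) / (q ^ j : ℕ)) = -(j : ℤ) := by
  have : Fact q.Prime := ⟨hq⟩
  have hc0 : (c : ℚ) ≠ 0 := by
    rintro h
    have h1 : c = 0 := by exact_mod_cast h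
    exact hc (h1 ▸ dvd_zero q)
  have hq0 : ((q ^ j : ℕ) : ℚ) ≠ 0 := by exact_mod_cast (pow_pos hq.pos j).ne'
  rw [padicValRat.div hc0 hq0, padicValRat.of_nat, padicValRat.of_nat,
    padicValNat.eq_zero_of_not_dvd hc, padicValNat.prime_pow]
  simp

private theorem dig2_val' {p q j c : ℕ} (hp : p.Prime) (hq : q.Prime) (hpq : p ≠ q) (hc : ¬ q ∣ c) :
    0 ≤ padicValRat p ((c : ℚ) / (q ^ j : ℕ)) := by
  have : Fact p.Prime := ⟨hp⟩
  have hc0 : (c : ℚ) ≠ 0 := by
    rintro h
    have h1 : c = 0 := by exact_mod_cast h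
    exact hc (h1 ▸ dvd_zero q)
  have hq0 : ((q ^ j : ℕ) : ℚ) ≠ 0 := by exact_mod_cast (pow_pos hq.pos j).ne'
  have h1 : ¬ p ∣ q ^ j := by
    intro h
    exact hpq ((Nat.prime_dvd_prime_iff_eq hp hq).1 (hp.dvd_of_dvd_pow h))
  rw [padicValRat.div hc0 hq0, padicValRat.of_nat, padicValRat.of_nat,
    padicValNat.eq_zero_of_not_dvd h1]
  simp

/-- Admissibility after adding a new level. -/
theorem admQ_add {S : Finset ℕ} {q j c : ℕ} (hq : q.Prime) (hj : 1 ≤ j) (hc : ¬ q ∣ c) {θ : ℚ}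
    (hθ : AdmQ S θ) (hlt : ∀ i : ℕ, q ^ i ∈ S → i < j) :
    AdmQ (insert (q ^ j) S) (θ + (c : ℚ) / (q ^ j : ℕ)) ∧
      (θ + (c : ℚ) / (q ^ j : ℕ)).den ≠ 1 := by
  have hF : Fact q.Prime := ⟨hq⟩
  have hr0 : (c : ℚ) / (q ^ j : ℕ) ≠ 0 := by
    intro h
    have h1 := dig2_val (j := j) hq hc
    rw [h, padicValRat.zero] at h1
    omega
  have hv := dig2_val (j := j) hq hc
  have hgt : -(j : ℤ) < padicValRat q θ := by
    rcases lt_or_ge (padicValRat q θ) 0 with h | h
    · have h1 := hlt _ (hθ q hq h)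
      omega
    · omega
  have hne : θ + (c : ℚ) / (q ^ j : ℕ) ≠ 0 := by
    intro h
    have h1 : θ = -((c : ℚ) / (q ^ j : ℕ)) := by linarith
    rw [h1, padicValRat.neg, hv] at hgt
    exact lt_irrefl _ hgt
  have hval : padicValRat q (θ + (c : ℚ) / (q ^ j : ℕ)) = -(j : ℤ) := by
    by_cases h0 : θ = 0
    · rw [h0, zero_add, hv]
    · rw [add_comm] at hne ⊢
      rw [padicValRat.add_eq_of_lt hne hr0 h0 (by rw [hv]; exact hgt), hv]
  refine ⟨fun p hp hneg => ?_, fun hden => ?_⟩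
  · by_cases hpq : p = q
    · subst hpq
      rw [hval]
      have : (-(-(j : ℤ))).toNat = j := by omega
      rw [this]
      exact mem_insert_self _ _
    · have : Fact p.Prime := ⟨hp⟩
      have h1 := dig2_val' (j := j) hp hq hpq hc
      have h0 : θ ≠ 0 := by
        rintro rfl
        rw [zero_add] at hneg
        omega
      have h2 : padicValRat p θ < 0 := by
        by_contra h3
        have h4 := padicValRat.min_le_padicValRat_add (p := p) hne
        have h5 : 0 ≤ min (padicValRat p θ) (padicValRat p ((c : ℚ) / (q ^ j : ℕ))) :=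
          le_min (not_lt.1 h3) h1
        omega
      have h3 : padicValRat p (θ + (c : ℚ) / (q ^ j : ℕ)) = padicValRat p θ :=
        padicValRat.add_eq_of_lt hne h0 hr0 (by omega)
      rw [h3]
      exact mem_insert_of_mem (hθ p hp h2)
  · have h1 : 0 ≤ padicValRat q (θ + (c : ℚ) / (q ^ j : ℕ)) := by
      rw [← Rat.coe_int_num_of_den_eq_one hden, padicValRat.of_int]
      exact Int.natCast_nonneg _
    omega

end Pool.Agent.CMC
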