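import Pool.Agent.CMC.Ex

/-! Expansion of the indicator of one digit (for `Dig.lean`). -/

namespace Pool.Agent.CMC

open Finset Pool.Agent.CMT

private theorem ex_frac (a m b : ℕ) :
    ex ((a : ℚ) / (m : ℕ)) b = Complex.exp (2 * Real.pi * Complex.I * ((a * b : ℕ) / (m : ℂ))) := by
  unfold ex
  congr 1
  push_cast
  ring

private theorem ex_swap (a m b : ℕ) : ex ((a : ℚ) / (m : ℕ)) b = ex ((b : ℚ) / (m : ℕ)) a := by
  rw [ex_frac, ex_frac, mul_comm a b]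

private theorem ex_zero_arg (θ : ℚ) : ex θ 0 = 1 := by
  unfold ex
  simp

private theorem ex_addx (θ : ℚ) (x y : ℕ) : ex θ (x + y) = ex θ x * ex θ y := by
  unfold ex
  rw [← Complex.exp_add]
  congr 1
  push_cast
  ring

private theorem ex_mul_period (a m t : ℕ) (hm : m ≠ 0) : ex ((a : ℚ) / (m : ℕ)) (t * m) = 1 := by
  rw [ex_frac, Complex.exp_eq_one_iff]
  refine ⟨(a * t : ℕ), ?_⟩
  have hm' : (m : ℂ) ≠ 0 := by exact_mod_cast hm
  push_cast
  field_simp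

private theorem ex_reduce (q a m b : ℕ) (hq : q ≠ 0) :
    ex (((q * a : ℕ) : ℚ) / ((m * q : ℕ) : ℕ)) b = ex ((a : ℚ) / (m : ℕ)) b := by
  have : (((q * a : ℕ) : ℚ) / ((m * q : ℕ) : ℕ)) = ((a : ℚ) / (m : ℕ)) := by
    have hq' : (q : ℚ) ≠ 0 := by exact_mod_cast hq
    push_cast
    rw [mul_comm (m : ℚ) q, mul_div_mul_left _ _ hq']
  rw [this]

private theorem dig_set {q i t : ℕ} (hq : q.Prime) (ht : t < q) :
    (range (q ^ i * q)).filter (fun y => dig (q ^ (i + 1)) y = t) =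
      (range (q ^ i)).image (fun z => t * q ^ i + z) := by
  have hmf : (q ^ (i + 1)).minFac = q := Nat.Prime.pow_minFac hq (by omega)
  have hm : 0 < q ^ i := pow_pos hq.pos i
  have hdiv : q ^ (i + 1) / q = q ^ i := by
    rw [pow_succ, Nat.mul_div_cancel _ hq.pos]
  ext y
  simp only [mem_filter, mem_range, mem_image, dig, hmf, hdiv]
  constructor
  · rintro ⟨h1, h2⟩
    have h3 : y / q ^ i < q := by
      rw [Nat.div_lt_iff_lt_mul hm, mul_comm]
      exact h1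
    rw [Nat.mod_eq_of_lt h3] at h2
    refine ⟨y % q ^ i, Nat.mod_lt _ hm, ?_⟩
    rw [← h2]
    exact Nat.div_add_mod' y (q ^ i)
  · rintro ⟨z, hz, rfl⟩
    constructor
    · calc t * q ^ i + z < t * q ^ i + q ^ i := by omega
        _ = (t + 1) * q ^ i := by ring
        _ ≤ q * q ^ i := Nat.mul_le_mul_right _ ht
        _ = q ^ i * q := by ring
    · rw [mul_comm, Nat.mul_add_div hm, Nat.div_eq_of_lt hz, add_zero, Nat.mod_eq_of_lt ht]

/-- Expansion of the indicator of one digit. -/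
theorem dig_expand {q j : ℕ} (hq : q.Prime) (hj : 1 ≤ j) {t : ℕ} (ht : t < q) :
    ∃ κ : ℕ → ℂ, ∀ x : ℕ, (if dig (q ^ j) x = t then (1 : ℂ) else 0) =
      1 / q + ∑ c ∈ (range (q ^ j)).filter (fun c => ¬ q ∣ c), κ c * ex ((c : ℚ) / (q ^ j : ℕ)) x := by
  obtain ⟨i, rfl⟩ : ∃ i, j = i + 1 := ⟨j - 1, by omega⟩
  obtain ⟨m, hmdef⟩ : ∃ m : ℕ, m = q ^ i := ⟨_, rfl⟩
  have hm : 0 < m := hmdef ▸ pow_pos hq.pos i
  have hn : q ^ (i + 1) = m * q := by rw [hmdef, pow_succ]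
  have hset := dig_set (i := i) hq ht
  rw [← hmdef] at hset
  obtain ⟨Y, hY⟩ : ∃ Y : Finset ℕ, Y = (range (m * q)).filter (fun y => dig (q ^ (i + 1)) y = t) :=
    ⟨_, rfl⟩
  rw [← hY] at hset
  refine ⟨fun c => 1 / (m * q : ℕ) * ∑ y ∈ Y, (ex ((c : ℚ) / (m * q : ℕ)) y)⁻¹, fun x => ?_⟩
  have hmq : 0 < m * q := Nat.mul_pos hm hq.pos
  have hmq' : ((m * q : ℕ) : ℂ) ≠ 0 := by exact_mod_cast hmq.ne'
  have hqC : (q : ℂ) ≠ 0 := by exact_mod_cast hq.ne_zero
  have hmC : (m : ℂ) ≠ 0 := by exact_mod_cast hm.ne'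
  -- the digit depends only on the residue
  have hmf : (q ^ (i + 1)).minFac = q := Nat.Prime.pow_minFac hq (by omega)
  have hdiv : q ^ (i + 1) / q = m := by
    rw [hmdef, pow_succ, Nat.mul_div_cancel _ hq.pos]
  have hdig : ∀ y, dig (q ^ (i + 1)) y = y / m % q := fun y => by
    unfold dig
    rw [hmf, hdiv]
  have hper : dig (q ^ (i + 1)) (x % (m * q)) = dig (q ^ (i + 1)) x := by
    rw [hdig, hdig, Nat.mod_mul_right_div_self, Nat.mod_mod]
  -- Fourier inversion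
  have h1 : (if dig (q ^ (i + 1)) x = t then (1 : ℂ) else 0) =
      ∑ y ∈ Y, (1 / (m * q : ℕ) : ℂ) * (if x % (m * q) = y % (m * q) then ((m * q : ℕ) : ℂ) else 0) := by
    rw [← mul_sum]
    have h2 : ∑ y ∈ Y, (if x % (m * q) = y % (m * q) then ((m * q : ℕ) : ℂ) else 0) =
        ∑ y ∈ Y, (if x % (m * q) = y then ((m * q : ℕ) : ℂ) else 0) := by
      refine sum_congr rfl fun y hy => ?_
      rw [hY, mem_filter, mem_range] at hy
      rw [Nat.mod_eq_of_lt hy.1]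
    rw [h2, sum_ite_eq]
    by_cases h3 : dig (q ^ (i + 1)) x = t
    · rw [if_pos h3, if_pos]
      · field_simp
      · rw [hY, mem_filter, mem_range]
        exact ⟨Nat.mod_lt _ hmq, by rw [hper, h3]⟩
    · rw [if_neg h3, if_neg, mul_zero]
      rw [hY, mem_filter]
      rintro ⟨-, h4⟩
      rw [hper] at h4
      exact h3 h4
  have h2 : (if dig (q ^ (i + 1)) x = t then (1 : ℂ) else 0) =
      ∑ c ∈ range (m * q), (1 / (m * q : ℕ) * ∑ y ∈ Y, (ex ((c : ℚ) / (m * q : ℕ)) y)⁻¹) *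
        ex ((c : ℚ) / (m * q : ℕ)) x := by
    rw [h1]
    have : ∀ y, (if x % (m * q) = y % (m * q) then ((m * q : ℕ) : ℂ) else 0) =
        ∑ c ∈ range (m * q), ex ((c : ℚ) / (m * q : ℕ)) x * (ex ((c : ℚ) / (m * q : ℕ)) y)⁻¹ :=
      fun y => (sum_ex (m * q) hmq x y).symm
    simp_rw [this, mul_sum]
    rw [sum_comm]
    refine sum_congr rfl fun c _ => ?_
    rw [sum_mul]
    refine sum_congr rfl fun y _ => ?_
    ring
  rw [h2, hn, ← sum_filter_add_sum_filter_not (range (m * q)) (fun c => q ∣ c)]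
  congr 1
  -- the terms divisible by `q`
  have h3 : ∀ c ∈ (range (m * q)).filter (fun c => q ∣ c), c ≠ 0 →
      (1 / (m * q : ℕ) * ∑ y ∈ Y, (ex ((c : ℚ) / (m * q : ℕ)) y)⁻¹) *
        ex ((c : ℚ) / (m * q : ℕ)) x = 0 := by
    intro c hc hc0
    rw [mem_filter, mem_range] at hc
    obtain ⟨hc1, a, rfl⟩ := hc
    have ham : a < m := by
      have h5 : q * a < q * m := by rw [mul_comm q m]; exact hc1
      exact Nat.lt_of_mul_lt_mul_left h5
    have ha0 : a ≠ 0 := by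
      rintro rfl
      exact hc0 (mul_zero q)
    have h4 : ∑ y ∈ Y, (ex (((q * a : ℕ) : ℚ) / (m * q : ℕ)) y)⁻¹ = 0 := by
      rw [hset, sum_image (fun u _ v _ h => Nat.add_left_cancel h)]
      have h5 : ∀ z ∈ range m, (ex (((q * a : ℕ) : ℚ) / (m * q : ℕ)) (t * m + z))⁻¹ =
          ex ((z : ℚ) / (m : ℕ)) 0 * (ex ((z : ℚ) / (m : ℕ)) a)⁻¹ := by
        intro z _
        rw [ex_reduce q a m _ hq.ne_zero, ex_addx, ex_mul_period a m t hm.ne', one_mul,
          ex_zero_arg, one_mul, ex_swap]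
      rw [sum_congr rfl h5, sum_ex m hm 0 a, if_neg]
      rw [Nat.zero_mod, Nat.mod_eq_of_lt ham]
      exact fun h => ha0 h.symm
    rw [h4, mul_zero, zero_mul]
  rw [sum_eq_single_of_mem 0 (by
    rw [mem_filter, mem_range]
    exact ⟨hmq, dvd_zero q⟩) h3]
  have h4 : ∑ y ∈ Y, (ex (((0 : ℕ) : ℚ) / (m * q : ℕ)) y)⁻¹ = (m : ℂ) := by
    rw [hset, sum_image (fun u _ v _ h => Nat.add_left_cancel h)]
    have h5 : ∀ z ∈ range m, (ex (((0 : ℕ) : ℚ) / (m * q : ℕ)) (t * m + z))⁻¹ = 1 := by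
      intro z _
      rw [Nat.cast_zero, zero_div, ex_zero, inv_one]
    rw [sum_congr rfl h5, sum_const, card_range, nsmul_eq_mul, mul_one]
  rw [h4, Nat.cast_zero, zero_div, ex_zero, mul_one]
  push_cast
  field_simp

end Pool.Agent.CMC
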