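import Pool.Agent.CMC.Dig

/-! The transversal theorem (note 2687), assembly: `digs_expand'` and `transversal'`. -/

namespace Pool.Agent.CMC

open Finset Pool.Agent.CMT

/-- The span of the exponentials with admissible frequency. -/
noncomputable def admSpan (S : Finset ℕ) : Submodule ℂ (ℕ → ℂ) :=
  Submodule.span ℂ ((fun θ : ℚ => ex θ) '' {θ | AdmQ S θ ∧ θ.den ≠ 1})

theorem admQ_zero (S : Finset ℕ) : AdmQ S 0 := by
  intro q _ h
  rw [padicValRat.zero] at h
  exact absurd h (lt_irrefl _)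

theorem admQ_mono {S T : Finset ℕ} (h : S ⊆ T) {θ : ℚ} (hθ : AdmQ S θ) : AdmQ T θ :=
  fun q hq hv => h (hθ q hq hv)

theorem admSpan_mono {S T : Finset ℕ} (h : S ⊆ T) : admSpan S ≤ admSpan T := by
  refine Submodule.span_mono (Set.image_mono ?_)
  rintro θ ⟨h1, h2⟩
  exact ⟨admQ_mono h h1, h2⟩

theorem ex_mem {S : Finset ℕ} {θ : ℚ} (h1 : AdmQ S θ) (h2 : θ.den ≠ 1) : ex θ ∈ admSpan S :=
  Submodule.subset_span ⟨θ, ⟨h1, h2⟩, rfl⟩

theorem digs_mem (S : Finset ℕ) : (∀ s ∈ S, IsPrimePow s) → ∀ t : ℕ → ℕ,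
    (∀ s ∈ S, t s < s.minFac) →
    (fun x : ℕ => (if ∀ s ∈ S, dig s x = t s then (1 : ℂ) else 0) -
      1 / (∏ s ∈ S, s.minFac : ℕ)) ∈ admSpan S := by
  induction S using Finset.induction_on_max with
  | empty =>
    intro _ t _
    have : (fun x : ℕ => (if ∀ s ∈ (∅ : Finset ℕ), dig s x = t s then (1 : ℂ) else 0) -
        1 / (∏ s ∈ (∅ : Finset ℕ), s.minFac : ℕ)) = 0 := by
      funext x
      simp
    rw [this]
    exact Submodule.zero_mem _
  | insert a S hmax ih =>
    intro hS t ht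
    have hS' : ∀ s ∈ S, IsPrimePow s := fun s hs => hS s (mem_insert_of_mem hs)
    have ht' : ∀ s ∈ S, t s < s.minFac := fun s hs => ht s (mem_insert_of_mem hs)
    have hG := ih hS' t ht'
    have haS : a ∉ S := fun h => lt_irrefl _ (hmax a h)
    obtain ⟨q, j, hq, hj, hqj⟩ := (isPrimePow_nat_iff a).1 (hS a (mem_insert_self _ _))
    have hmf : a.minFac = q := by
      rw [← hqj, hq.pow_minFac hj.ne']
    have hta : t a < q := by
      have := ht a (mem_insert_self _ _)
      rwa [hmf] at this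
    obtain ⟨κ, hκ⟩ := dig_expand hq hj hta
    rw [hqj] at hκ
    have hlt : ∀ i : ℕ, q ^ i ∈ S → i < j := by
      intro i hi
      have h1 := hmax _ hi
      rw [← hqj] at h1
      exact (Nat.pow_lt_pow_iff_right hq.one_lt).1 h1
    set I := (range a).filter (fun c => ¬ q ∣ c) with hI
    set g : ℕ → ℂ := fun x => ∑ c ∈ I, κ c * ex ((c : ℚ) / (a : ℕ)) x with hg
    set G : ℕ → ℂ := fun x : ℕ => (if ∀ s ∈ S, dig s x = t s then (1 : ℂ) else 0) -
      1 / (∏ s ∈ S, s.minFac : ℕ) with hGd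
    have hadd : ∀ c ∈ I, ∀ θ : ℚ, AdmQ S θ →
        ex (θ + (c : ℚ) / (a : ℕ)) ∈ admSpan (insert a S) := by
      intro c hc θ hθ
      have h1 := admQ_add hq hj (mem_filter.1 hc).2 hθ hlt
      rw [hqj] at h1
      exact ex_mem h1.1 h1.2
    have hgm : g ∈ admSpan (insert a S) := by
      have e : g = ∑ c ∈ I, κ c • ex ((c : ℚ) / (a : ℕ)) := by
        funext x
        simp [hg, Finset.sum_apply]
      rw [e]
      refine Submodule.sum_mem _ fun c hc => Submodule.smul_mem _ _ ?_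
      have := hadd c hc 0 (admQ_zero S)
      rwa [zero_add] at this
    have hmul : ∀ H ∈ admSpan S, g * H ∈ admSpan (insert a S) := by
      intro H hH
      have hle : admSpan S ≤ (admSpan (insert a S)).comap (LinearMap.mulLeft ℂ g) := by
        refine Submodule.span_le.2 ?_
        rintro _ ⟨θ, ⟨h1, -⟩, rfl⟩
        simp only [SetLike.mem_coe, Submodule.mem_comap, LinearMap.mulLeft_apply]
        have e : g * ex θ = ∑ c ∈ I, κ c • ex (θ + (c : ℚ) / (a : ℕ)) := by
          funext x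
          simp only [hg, Pi.mul_apply, Finset.sum_apply, Pi.smul_apply, smul_eq_mul,
            Finset.sum_mul]
          refine Finset.sum_congr rfl fun c _ => ?_
          rw [ex_add]
          ring
        rw [e]
        exact Submodule.sum_mem _ fun c hc => Submodule.smul_mem _ _ (hadd c hc θ h1)
      exact hle hH
    have hP : ((∏ s ∈ S, s.minFac : ℕ) : ℂ) ≠ 0 := by
      rw [Nat.cast_ne_zero, Finset.prod_ne_zero_iff]
      intro s _
      exact (Nat.minFac_pos s).ne'
    have hq0 : (q : ℂ) ≠ 0 := Nat.cast_ne_zero.2 hq.ne_zero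
    have hfin : (fun x : ℕ => (if ∀ s ∈ insert a S, dig s x = t s then (1 : ℂ) else 0) -
        1 / (∏ s ∈ insert a S, s.minFac : ℕ)) =
        (1 / (q : ℂ)) • G + (1 / ((∏ s ∈ S, s.minFac : ℕ) : ℂ)) • g + g * G := by
      funext x
      have e1 : (if ∀ s ∈ insert a S, dig s x = t s then (1 : ℂ) else 0) =
          (if dig a x = t a then (1 : ℂ) else 0) *
          (if ∀ s ∈ S, dig s x = t s then (1 : ℂ) else 0) := by
        simp only [Finset.forall_mem_insert]
        split_ifs <;> simp_all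
      have e2 : (if ∀ s ∈ S, dig s x = t s then (1 : ℂ) else 0) =
          G x + 1 / (∏ s ∈ S, s.minFac : ℕ) := by
        simp only [hGd]
        ring
      have e3 : (∏ s ∈ insert a S, s.minFac) = q * ∏ s ∈ S, s.minFac := by
        rw [Finset.prod_insert haS, hmf]
      simp only [Pi.add_apply, Pi.smul_apply, Pi.mul_apply, smul_eq_mul]
      rw [e1, hκ x, e2, e3, Nat.cast_mul]
      simp only [hg]
      field_simp
      ring
    rw [hfin]
    exact Submodule.add_mem _ (Submodule.add_mem _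
      (Submodule.smul_mem _ _ (admSpan_mono (subset_insert _ _) hG))
      (Submodule.smul_mem _ _ hgm)) (hmul G hG)

/-- The main expansion: for a finite set `S` of prime powers and digits `t s < minFac s`. -/
theorem digs_expand' (S : Finset ℕ) (hS : ∀ s ∈ S, IsPrimePow s) (t : ℕ → ℕ)
    (ht : ∀ s ∈ S, t s < s.minFac) :
    ∃ (Θ : Finset ℚ) (κ : ℚ → ℂ), (∀ θ ∈ Θ, AdmQ S θ ∧ θ.den ≠ 1) ∧
      ∀ x : ℕ, (if ∀ s ∈ S, dig s x = t s then (1 : ℂ) else 0) =
        1 / (∏ s ∈ S, s.minFac : ℕ) + ∑ θ ∈ Θ, κ θ * ex θ x := by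
  have h := digs_mem S hS t ht
  rw [admSpan, Finsupp.mem_span_image_iff_linearCombination] at h
  obtain ⟨l, hl, he⟩ := h
  refine ⟨l.support, l, ?_, ?_⟩
  · intro θ hθ
    exact (Finsupp.mem_supported ℂ l).1 hl hθ
  · intro x
    have h1 := congrFun he x
    rw [Finsupp.linearCombination_apply, Finsupp.sum] at h1
    simp only [Finset.sum_apply, Pi.smul_apply, smul_eq_mul] at h1
    rw [h1]
    ring

theorem transversal' {A : Finset ℕ} (h : IsTile A) (t : ℕ → ℕ)
    (ht : ∀ s ∈ SA A, t s < s.minFac) :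
    (A.filter (fun a => ∀ s ∈ SA A, dig s a = t s)).card = 1 := by
  have hS : ∀ s ∈ SA A, IsPrimePow s := by
    intro s hs
    classical
    rw [SA, Finset.mem_filter] at hs
    exact hs.2.1
  obtain ⟨Θ, κ, h1, h2⟩ := digs_expand' (SA A) hS t ht
  have hP : ((∏ s ∈ SA A, s.minFac : ℕ) : ℂ) ≠ 0 := by
    rw [Nat.cast_ne_zero, Finset.prod_ne_zero_iff]
    intro s _
    exact (Nat.minFac_pos s).ne'
  have h3 : (((A.filter (fun a => ∀ s ∈ SA A, dig s a = t s)).card : ℕ) : ℂ) = 1 := by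
    rw [Finset.card_filter]
    push_cast
    rw [Finset.sum_congr rfl (fun a _ => h2 a), Finset.sum_add_distrib, Finset.sum_const,
      nsmul_eq_mul, Finset.sum_comm]
    have h4 : ∑ θ ∈ Θ, ∑ a ∈ A, κ θ * ex θ a = 0 := by
      refine Finset.sum_eq_zero fun θ hθ => ?_
      rw [← Finset.mul_sum]
      have := ev_zero h (h1 θ hθ).2 (h1 θ hθ).1
      rw [ev] at this
      rw [this, mul_zero]
    rw [h4, add_zero, card_eq h]
    field_simp
  exact_mod_cast h3

end Pool.Agent.CMC
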