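import Pool.Agent.CMC.Defs

/-! `mem_SA` of `TOne.lean`: a prime power `s` with `Φ_s | mask A` is at most `2 max A`. -/

namespace Pool.Agent.CMC

open Finset Pool.Agent.CMT

private theorem mask_ne_zero' {A : Finset ℕ} (hA : A.Nonempty) : mask A ≠ 0 := by
  intro h
  have h1 : (mask A).eval 1 = (A.card : ℤ) := by
    unfold mask
    rw [Polynomial.eval_finsetSum]
    simp
  rw [h, Polynomial.eval_zero] at h1
  have h2 := hA.card_pos
  omega

private theorem natDegree_mask_le' (A : Finset ℕ) : (mask A).natDegree ≤ A.sup id := by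
  unfold mask
  refine Polynomial.natDegree_sum_le_of_forall_le _ _ fun a ha => ?_
  exact (Polynomial.natDegree_X_pow_le a).trans (Finset.le_sup (f := id) ha)

private theorem primePow_le_two_totient' {s : ℕ} (hs : IsPrimePow s) : s ≤ 2 * s.totient := by
  obtain ⟨q, j, hq, hj, rfl⟩ := (isPrimePow_nat_iff s).1 hs
  rw [Nat.totient_prime_pow hq hj]
  obtain ⟨k, rfl⟩ : ∃ k, j = k + 1 := ⟨j - 1, by omega⟩
  rw [Nat.add_sub_cancel, pow_succ]
  have h2 := hq.two_le
  calc q ^ k * q ≤ q ^ k * (2 * (q - 1)) := Nat.mul_le_mul_left _ (by omega)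
    _ = 2 * (q ^ k * (q - 1)) := by ring

theorem mem_SA {A : Finset ℕ} (hA : A.Nonempty) {s : ℕ} :
    s ∈ SA A ↔ IsPrimePow s ∧ Polynomial.cyclotomic s ℤ ∣ mask A := by
  simp only [SA, Finset.mem_filter, Finset.mem_range]
  refine ⟨fun h => h.2, fun h => ⟨?_, h⟩⟩
  have h1 := Polynomial.natDegree_le_of_dvd h.2 (mask_ne_zero' hA)
  rw [Polynomial.natDegree_cyclotomic] at h1
  have h2 := primePow_le_two_totient' h.1
  have h3 := natDegree_mask_le' A
  omega

end Pool.Agent.CMC
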