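import Pool.Agent.CMC.TOne

/-! (T2) for tiles in the form: `A(e(θ)) = 0` for every admissible rational `θ ∉ ℤ`.

`N = θ.den`, `N ≠ 1`; for a prime `q | N`, `v_q(N) = - padicValRat q θ` (`θ` in lowest terms), so
`q^(v_q N) ∈ SA A`. With `S = {q^(v_q N) : q | N}` (pairwise coprime prime powers with product `N`),
`M, T` from `CMT.exists_til h (q := N)` and `CMT.t2` one gets `Φ_N | mask A`. `e(θ)` is a primitive
`N`-th root of unity (`Complex.isPrimitiveRoot_exp_of_coprime` or similar), hence a root of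
`Φ_N`. -/

namespace Pool.Agent.CMC

open Finset Pool.Agent.CMT

private theorem root_val (θ : ℚ) {q : ℕ} (hq : q.Prime) (hqd : q ∣ θ.den) :
    padicValRat q θ = -(θ.den.factorization q : ℤ) := by
  have : Fact q.Prime := ⟨hq⟩
  rw [padicValRat_def, Nat.factorization_def _ hq]
  have h1 : padicValInt q θ.num = 0 := by
    refine padicValInt.eq_zero_of_not_dvd fun h => ?_
    have h2 : q ∣ θ.num.natAbs := Int.natCast_dvd.1 h
    have h3 := Nat.dvd_gcd h2 hqd
    rw [Nat.Coprime.gcd_eq_one θ.reduced] at h3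
    exact hq.one_lt.ne' (Nat.dvd_one.1 h3)
  rw [h1]
  simp

theorem ev_zero {A : Finset ℕ} (h : IsTile A) {θ : ℚ} (hθ : θ.den ≠ 1) (ha : AdmQ (SA A) θ) :
    ev A θ = 0 := by
  classical
  set N := θ.den with hN
  have hN0 : N ≠ 0 := θ.den_nz
  set f : ℕ → ℕ := fun q => q ^ (N.factorization q) with hf
  set S : Finset ℕ := N.primeFactors.image f with hS
  have hpos : ∀ q ∈ N.primeFactors, 0 < N.factorization q := fun q hq =>
    (Nat.prime_of_mem_primeFactors hq).factorization_pos_of_dvd hN0 (Nat.dvd_of_mem_primeFactors hq)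
  have hcop : ∀ q ∈ N.primeFactors, ∀ r ∈ N.primeFactors, q ≠ r → (f q).Coprime (f r) := by
    intro q hq r hr hqr
    exact Nat.Coprime.pow _ _ ((Nat.coprime_primes (Nat.prime_of_mem_primeFactors hq)
      (Nat.prime_of_mem_primeFactors hr)).2 hqr)
  have hfgt : ∀ q ∈ N.primeFactors, f q ≠ 1 := by
    intro q hq h1
    have h2 : 1 < f q := Nat.one_lt_pow (hpos q hq).ne' (Nat.prime_of_mem_primeFactors hq).one_lt
    omega
  have hinj : Set.InjOn f N.primeFactors := by
    intro q hq r hr hqr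
    by_contra hne
    have h1 := hcop q hq r hr hne
    rw [hqr, Nat.coprime_self] at h1
    exact hfgt r hr h1
  have hprod : ∏ s ∈ S, s = N := by
    rw [hS, Finset.prod_image hinj]
    exact Nat.prod_factorization_pow_eq_self hN0
  have hSA : ∀ s ∈ S, s ∈ SA A := by
    intro s hs
    obtain ⟨q, hq, rfl⟩ := Finset.mem_image.1 hs
    have hqp := Nat.prime_of_mem_primeFactors hq
    have hv := root_val θ hqp (Nat.dvd_of_mem_primeFactors hq)
    have h1 := ha q hqp (by
      rw [hv, neg_lt_zero]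
      exact_mod_cast hpos q hq)
    rw [hv, neg_neg, Int.toNat_natCast] at h1
    exact h1
  have hSne : S.Nonempty := by
    rw [hS, Finset.image_nonempty, Nat.nonempty_primeFactors]
    omega
  have hAne := h.nonempty
  obtain ⟨M, T, hNM, hT⟩ := exists_til h (Nat.pos_of_ne_zero hN0)
  have hΦ : Polynomial.cyclotomic N ℤ ∣ mask A := by
    rw [← hprod]
    refine t2 hT S hSne (fun s hs => ((mem_SA hAne).1 (hSA s hs)).1) (fun s hs => ?_)
      (fun s hs => ((mem_SA hAne).1 (hSA s hs)).2) ?_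
    · refine Dvd.dvd.trans ?_ hNM
      rw [← hprod]
      exact Finset.dvd_prod_of_mem (fun s => s) hs
    · intro s hs t ht hst
      obtain ⟨q, hq, rfl⟩ := Finset.mem_image.1 hs
      obtain ⟨r, hr, rfl⟩ := Finset.mem_image.1 ht
      exact hcop q hq r hr (fun h => hst (by rw [h]))
  set ζ : ℂ := Complex.exp (2 * Real.pi * Complex.I * (θ : ℂ)) with hζ
  have hprim : IsPrimitiveRoot ζ N := Complex.isPrimitiveRoot_exp_rat θ
  have hroot : Polynomial.aeval ζ (Polynomial.cyclotomic N ℤ) = 0 := by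
    rw [Polynomial.aeval_def, Polynomial.eval₂_eq_eval_map, algebraMap_int_eq,
      Polynomial.map_cyclotomic_int]
    exact hprim.isRoot_cyclotomic (Nat.pos_of_ne_zero hN0)
  have hmask : Polynomial.aeval ζ (mask A) = ev A θ := by
    rw [mask, map_sum, ev]
    refine Finset.sum_congr rfl fun a _ => ?_
    rw [map_pow, Polynomial.aeval_X, ex, hζ, ← Complex.exp_nat_mul]
    congr 1
    ring
  rw [← hmask]
  obtain ⟨g, hg⟩ := hΦ
  rw [hg, map_mul, hroot, zero_mul]

end Pool.Agent.CMC
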